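import Pool.Agent.KACG.Hill

/-!
# Squad KACG, rows H_UNI (uniqueness) and H_FLO (Floquet multipliers)
-/

open scoped ComplexConjugate ContDiff

noncomputable section

namespace Pool.Agent.KACG.H49

open Pool.Agent.KACG Set

theorem f1_eq : (fun s : ℝ => (1 : ℂ) + 0 * (s : ℂ)) = f1 := by
  ext s
  simp [f1]

theorem f2_eq : (fun s : ℝ => (0 : ℂ) + 1 * (s : ℂ)) = f2 := by
  ext s
  simp [f2]

theorem vol1 (hVol : VolStmt) {V : ℝ → ℝ} (hV : Continuous V) (E : ℂ) :
    IsSol V E (sol V E f1) ∧ sol V E f1 0 = 1 ∧ deriv (sol V E f1) 0 = 0 := by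
  have h := hVol V hV E 1 0
  rw [f1_eq] at h
  exact ⟨h.1, h.2.1, h.2.2.1⟩

theorem vol2 (hVol : VolStmt) {V : ℝ → ℝ} (hV : Continuous V) (E : ℂ) :
    IsSol V E (sol V E f2) ∧ sol V E f2 0 = 0 ∧ deriv (sol V E f2) 0 = 1 := by
  have h := hVol V hV E 0 1
  rw [f2_eq] at h
  exact ⟨h.1, h.2.1, h.2.2.1⟩

/-- the first order system -/
def sys (V : ℝ → ℝ) (E : ℂ) (t : ℝ) (x : ℂ × ℂ) : ℂ × ℂ := (x.2, (((V t : ℝ) : ℂ) - E) * x.1)

theorem sys_lip {V : ℝ → ℝ} (hV : Continuous V) (E : ℂ) (R : ℝ) :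
    ∃ K : NNReal, ∀ t ∈ Ioo (-R) R, LipschitzOnWith K (sys V E t) univ := by
  have hc : Continuous fun t : ℝ => ‖((V t : ℝ) : ℂ) - E‖ := by fun_prop
  obtain ⟨C, hC⟩ := (isCompact_Icc (a := -R) (b := R)).exists_bound_of_continuousOn
    hc.continuousOn
  refine ⟨⟨max 1 C, le_trans zero_le_one (le_max_left _ _)⟩, ?_⟩
  intro t ht
  apply LipschitzWith.lipschitzOnWith
  apply LipschitzWith.of_dist_le_mul
  intro x y
  rw [dist_eq_norm, dist_eq_norm]
  have h1 : ‖((V t : ℝ) : ℂ) - E‖ ≤ max 1 C := by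
    have := hC t ⟨ht.1.le, ht.2.le⟩
    rw [norm_norm] at this
    exact this.trans (le_max_right _ _)
  show ‖sys V E t x - sys V E t y‖ ≤ max 1 C * ‖x - y‖
  have h2 : sys V E t x - sys V E t y =
      (x.2 - y.2, (((V t : ℝ) : ℂ) - E) * (x.1 - y.1)) := by
    unfold sys
    ext <;> simp [mul_sub]
  rw [h2, Prod.norm_def]
  have h3 : ‖x.2 - y.2‖ ≤ ‖x - y‖ := norm_snd_le (x - y)
  have h4 : ‖x.1 - y.1‖ ≤ ‖x - y‖ := norm_fst_le (x - y)
  apply max_le
  · calc ‖x.2 - y.2‖ ≤ 1 * ‖x - y‖ := by rw [one_mul]; exact h3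
      _ ≤ _ := mul_le_mul_of_nonneg_right (le_max_left _ _) (norm_nonneg _)
  · simp only
    rw [norm_mul]
    exact mul_le_mul h1 h4 (norm_nonneg _) (le_trans zero_le_one (le_max_left _ _))

theorem sol_unique {V : ℝ → ℝ} (hV : Continuous V) {E : ℂ} {u v : ℝ → ℂ} (hu : IsSol V E u)
    (hv : IsSol V E v) (h0 : u 0 = v 0) (h1 : deriv u 0 = deriv v 0) (s : ℝ) :
    u s = v s ∧ deriv u s = deriv v s := by
  obtain ⟨K, hK⟩ := sys_lip hV E (|s| + 1)
  have hp : ∀ {w : ℝ → ℂ}, IsSol V E w → ∀ t ∈ Ioo (-(|s| + 1)) (|s| + 1),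
      HasDerivAt (fun t => (w t, deriv w t)) (sys V E t ((fun t => (w t, deriv w t)) t)) t ∧
        (fun t => (w t, deriv w t)) t ∈ (univ : Set (ℂ × ℂ)) := by
    intro w hw t _
    exact ⟨(hw.1 t).prodMk (hw.2 t), mem_univ _⟩
  have h2 := ODE_solution_unique_of_mem_Ioo (v := sys V E) (s := fun _ => univ) (K := K)
    (a := -(|s| + 1)) (b := |s| + 1) (t₀ := 0) (f := fun t => (u t, deriv u t))
    (g := fun t => (v t, deriv v t)) hK ⟨by linarith [abs_nonneg s], by linarith [abs_nonneg s]⟩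
    (hp hu) (hp hv) (by simp only [h0, h1])
  have h3 := h2 (⟨by linarith [neg_abs_le s], by linarith [le_abs_self s]⟩ :
    s ∈ Ioo (-(|s| + 1)) (|s| + 1))
  exact ⟨congrArg Prod.fst h3, congrArg Prod.snd h3⟩

theorem sol_lin {V : ℝ → ℝ} {E : ℂ} {u v : ℝ → ℂ} (hu : IsSol V E u) (hv : IsSol V E v)
    (a b : ℂ) : IsSol V E (fun s => a * u s + b * v s) ∧
      ∀ s, deriv (fun s => a * u s + b * v s) s = a * deriv u s + b * deriv v s := by
  have h1 : ∀ s, HasDerivAt (fun s => a * u s + b * v s) (a * deriv u s + b * deriv v s) s :=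
    fun s => ((hu.1 s).const_mul a).add ((hv.1 s).const_mul b)
  have h2 : deriv (fun s => a * u s + b * v s) = fun s => a * deriv u s + b * deriv v s :=
    funext fun s => (h1 s).deriv
  refine ⟨⟨?_, ?_⟩, fun s => (h1 s).deriv⟩
  · intro s
    rw [h2]
    exact h1 s
  · intro s
    rw [h2]
    have h3 := ((hu.2 s).const_mul a).add ((hv.2 s).const_mul b)
    have e : a * ((((V s : ℝ) : ℂ) - E) * u s) + b * ((((V s : ℝ) : ℂ) - E) * v s) =
        (((V s : ℝ) : ℂ) - E) * (a * u s + b * v s) := by ring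
    rw [← e]
    exact h3

theorem uni_both (hVol : VolStmt) {V : ℝ → ℝ} (hV : Continuous V) {E : ℂ} {u : ℝ → ℂ}
    (hu : IsSol V E u) (s : ℝ) :
    u s = u 0 * sol V E f1 s + deriv u 0 * sol V E f2 s ∧
      deriv u s = u 0 * deriv (sol V E f1) s + deriv u 0 * deriv (sol V E f2) s := by
  obtain ⟨a1, a2, a3⟩ := vol1 hVol hV E
  obtain ⟨b1, b2, b3⟩ := vol2 hVol hV E
  obtain ⟨c1, c2⟩ := sol_lin a1 b1 (u 0) (deriv u 0)
  have h := sol_unique hV hu c1 (by rw [a2, b2]; ring) (by rw [c2, a3, b3]; ring) s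
  rw [c2] at h
  exact h

theorem uni (hVol : VolStmt) : UniStmt := by
  intro V hV E u hu s
  exact (uni_both hVol hV hu s).1

theorem wronski (hVol : VolStmt) {V : ℝ → ℝ} (hV : Continuous V) (E : ℂ) (s : ℝ) :
    sol V E f1 s * deriv (sol V E f2) s - deriv (sol V E f1) s * sol V E f2 s = 1 := by
  obtain ⟨a1, a2, a3⟩ := vol1 hVol hV E
  obtain ⟨b1, b2, b3⟩ := vol2 hVol hV E
  have h1 : ∀ s, HasDerivAt (fun s => sol V E f1 s * deriv (sol V E f2) s -
      deriv (sol V E f1) s * sol V E f2 s) 0 s := by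
    intro s
    have := ((a1.1 s).mul (b1.2 s)).sub ((a1.2 s).mul (b1.1 s))
    have e : deriv (sol V E f1) s * deriv (sol V E f2) s +
        sol V E f1 s * ((((V s : ℝ) : ℂ) - E) * sol V E f2 s) -
        ((((V s : ℝ) : ℂ) - E) * sol V E f1 s * sol V E f2 s +
        deriv (sol V E f1) s * deriv (sol V E f2) s) = 0 := by ring
    rw [← e]
    exact this
  have h2 := is_const_of_deriv_eq_zero (fun s => (h1 s).differentiableAt) (fun s => (h1 s).deriv) s 0
  rw [h2, a2, a3, b2, b3]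
  ring

theorem flo (hVol : VolStmt) : FloStmt := by
  intro L V hV E ζ u hu hne hper hζ
  have hW := wronski hVol hV E L
  obtain ⟨h1, h2⟩ := uni_both hVol hV hu L
  have hL : u L = ζ * u 0 := by
    have := hper 0
    rwa [zero_add] at this
  have hL' : deriv u L = ζ * deriv u 0 := by
    have e1 : HasDerivAt (fun s => u (s + L)) (deriv u (0 + L)) 0 :=
      (hu.1 (0 + L)).comp_add_const 0 L
    have e2 : HasDerivAt (fun s => u (s + L)) (ζ * deriv u 0) 0 := by
      have : (fun s => u (s + L)) = fun s => ζ * u s := funext hper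
      rw [this]
      exact (hu.1 0).const_mul ζ
    have e3 := e1.unique e2
    rwa [zero_add] at e3
  set a := u 0 with ha
  set b := deriv u 0 with hb
  set m11 := sol V E f1 L
  set m12 := sol V E f2 L
  set m21 := deriv (sol V E f1) L
  set m22 := deriv (sol V E f2) L
  have k1 : (m11 - ζ) * a + m12 * b = 0 := by
    rw [hL] at h1
    linear_combination -h1
  have k2 : m21 * a + (m22 - ζ) * b = 0 := by
    rw [hL'] at h2
    linear_combination -h2
  have hab : a ≠ 0 ∨ b ≠ 0 := by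
    by_contra hcon
    push Not at hcon
    obtain ⟨s, hs⟩ := hne
    apply hs
    rw [(uni_both hVol hV hu s).1, ← ha, ← hb, hcon.1, hcon.2]
    ring
  have hdet : (m11 - ζ) * (m22 - ζ) - m12 * m21 = 0 := by
    have d1 : a * ((m11 - ζ) * (m22 - ζ) - m12 * m21) = 0 := by
      linear_combination (m22 - ζ) * k1 - m12 * k2
    have d2 : b * ((m11 - ζ) * (m22 - ζ) - m12 * m21) = 0 := by
      linear_combination (m11 - ζ) * k2 - m21 * k1
    rcases hab with h | h
    · exact (mul_eq_zero.1 d1).resolve_left h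
    · exact (mul_eq_zero.1 d2).resolve_left h
  show m11 + m22 = ζ + ζ⁻¹
  have h5 : ζ * (m11 + m22) = ζ * ζ + 1 := by
    linear_combination hW - hdet
  field_simp
  linear_combination h5

end Pool.Agent.KACG.H49
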